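import Pool.Agent.R936.ArbF.NcT

/-!
# The noncommutative Tate conjecture: factors with few Frobenius eigenvalues

Let `X i`, `i ∈ I`, be a family (finite or infinite) of smooth projective varieties over the field with
`q = p ^ e` elements, such that the slopes have a common denominator `D` and the multiplicative group
generated by all Frobenius eigenvalues has rank at most `R` (for instance all products of elliptic curves
and abelian varieties whose Frobenius eigenvalues are in one number field). Assume that the pole formula
of Tate holds in all codimensions for the products of members with at most `R + 1` different factors.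

Let `𝒞` be an admissible subcategory of `D(Z)`, `Z` **any** smooth projective variety over the field with
`q` elements. The projection to `𝒞` is given by a kernel on `Z × Z` with the Mukai vector `γ`, and the
projection of `D(Z × P)` to `𝒞 ⊠ D(P)` by the product with the diagonal of `P`. By the theorem of
Thomason the noncommutative Tate conjecture for `𝒞 ⊠ D(P)` says that the classes `γ ∘ c`, for all Tate
classes `c` on `Z × P` (over all finite extensions of the base field), are linear combinations of classes
of algebraic cycles: this is `NcTate Φ γ P`. The condition `SlopeLevelLe Φ γ ℓ` says that the slopes `s`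
of the Frobenius eigenvalues of weight `d` in the cohomology of `𝒞` (the image of `γ`) satisfy
`|2 s - d| ≤ ℓ`; since the Newton polygon is above the Hodge polygon, this is to be expected if the
Hochschild homology groups `HH_i(𝒞)` vanish for `|i| > ℓ`.

*Theorem.* There is one product `Y` of members of the family such that for every `ℓ`, every `Z` and
every `𝒞` of slope level at most `ℓ`: the noncommutative Tate conjecture holds for `𝒞 ⊠ D(P)` for all
products `P` of members of the family, **if and only if** it holds for `𝒞 ⊠ D(Y ^ ℓ)` (for `ℓ = 0`
read `𝒞 ⊠ D(Y)`). For example one needs `Y ^ 2` for all noncommutative K3 surfaces and `Y` for all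
categories whose cohomology is supersingular. Nothing is assumed about `Z` and `𝒞`; in particular
it is not assumed that the Frobenius endomorphism of `Z` is semisimple.

*Proof.* By the theorem of Helly type (`MP_0f183b_ag.HellyNumber`) all Tate words in the eigenvectors in
the cohomology of the members are algebraic. Applied to the word of an eigenvector and its dual this
shows that the eigenvectors are honest ones (not generalised). A Tate class `c` on `Z × P` is a sum of
classes `z_a ⊗ w_a`, where the `w_a` form a basis of words, and the `z_a` are honest eigenvectors of
large powers of the Frobenius endomorphism. If `γ(z_a)` is not zero, the rows of the `p`-adic valuations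
of `w_a` are bounded by `ℓ`, and by a lemma of Dickson type there is a word `b` on `Y ^ ℓ` with the same
row and parity. So `z_a ⊗ b` is a Tate class on `Z × Y ^ ℓ` and `γ(z_a) ⊗ b` is algebraic; the
contraction with the algebraic class `b* ⊗ w_a` is a nonzero multiple of `γ(z_a) ⊗ w_a`.
-/

open CategoryTheory AlgebraicGeometry

universe u v w

namespace Pool.Agent.Results.MP_de89cc_ag.FactorsWithFewEigenvalues

open Pool.Agent.H914 Pool.Agent.W534 Pool.Agent.R936.Hel Pool.Agent.R936.ArbF VarClass Obj
  WeilCohomology
open Pool.Agent.R940 (HasIntegralPolys IsSlopeDenominator)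

/-- **The noncommutative Tate conjecture with factors with few Frobenius eigenvalues**: for a family of
varieties over a finite field whose Frobenius eigenvalues generate a group of rank at most `R`, for which
the pole formula holds for the products with at most `R + 1` different factors, there is one product `Y`
of members such that for every admissible subcategory `𝒞` of `D(Z)`, `Z` arbitrary (with the class `γ`
of the projection), of slope level at most `ℓ` the category `𝒞 ⊠ D(Y ^ ℓ)` decides for all categories
`𝒞 ⊠ D(P)`, `P` a product of members of the family. -/
theorem result {k : Type u} [Field k] {𝒱 : VarClass k} {ops : CycleOps 𝒱}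
    (W : WeilCohomology.{u, v} ops) [IsAlgClosed W.K] (σ : W.K →+* ℂ) (p : ℕ) [Fact p.Prime]
    (Φ : FrobSystem W p) (hRH : ∀ Z : 𝒱.Obj, RiemannHyp Φ σ Z) {I : Type w} [Nonempty I]
    (X : I → 𝒱.Obj) (e : ℕ) (he : ∀ i, Φ.e (X i) = e) (hint : ∀ i, HasIntegralPolys Φ σ (X i))
    (D : ℕ) (hD : ∀ i, IsSlopeDenominator Φ σ (X i) D) (R : ℕ)
    (hR : RankLe {z | ∃ i, z ∈ eigenvalues Φ σ (X i)} R)
    (h : ∀ i L, (∃ F : Finset I, F.card ≤ R + 1 ∧ ∀ j ∈ i :: L, j ∈ F) →
      ∀ j, j ≤ (prodOf X i L).dim → PoleFormula Φ σ (prodOf X i L) j) :
    ∃ (i₀ : I) (L₀ : List I), ∀ (ℓ : ℕ) (Z : 𝒱.Obj), Φ.e Z = e → HasIntegralPolys Φ σ Z →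
      ∀ γ : W.H (Z.prod Z), SlopeLevelLe Φ γ ℓ →
        (NcTate Φ γ (powerOf X i₀ L₀ ℓ) ↔ ∀ i L, NcTate Φ γ (prodOf X i L)) :=
  ncf_main hRH he hint hD hR h

end Pool.Agent.Results.MP_de89cc_ag.FactorsWithFewEigenvalues
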